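import Mathlib
import Pool.Agent.Q142.Expl
import Pool.Agent.Q142.OrbDefs
import Pool.Agent.Q142.OrbBox
import Pool.Agent.Q142.OrbCube
import Pool.Agent.Q142.OrbStrata

set_option autoImplicit false

/-!
# Global minimisers of `λ₁` on strata need not be equilateral

The group of all sign changes of the coordinates of `ℝ³`: the orbit polytopes are boxes, the
random walk matrix is the same for all of them, hence every box is a global minimiser.
-/

namespace Pool.Agent.Results.MP_427d8c_co.Boxes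

open Q142 Q142.Orb

/-- For every radius `r` there is a finite group `Γ ⊂ O(3)` for which all strata are submanifolds
of the sphere, `λ₁` is continuous and attains its minimum on every stratum, and some global
minimiser of `λ₁` on some stratum has an orbit polytope that is not equilateral. -/
theorem result (r : ℝ) (hr : 0 < r) :
    ∃ Γ : Subgroup (Sp 3 ≃ₗᵢ[ℝ] Sp 3), Finite Γ ∧
      (∀ S, IsStratum Γ r S → IsSubmanifold S) ∧
      (∀ S, IsStratum Γ r S → ContinuousOn (fun w => lam1 (orb Γ w)) S ∧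
        ∃ w ∈ S, IsMinOn (fun w => lam1 (orb Γ w)) S w) ∧
      ∃ S, IsStratum Γ r S ∧ ∃ w ∈ S, IsMinOn (fun w => lam1 (orb Γ w)) S w ∧
        ¬ Equilateral (orb Γ w) := by
  have hconst : ∀ w₀ : Sp 3, ∀ w ∈ O r w₀, lam1 (orb (signs 3) w) =
      (cubeWalk.charpoly.roots.sort (· ≥ ·)).getD 1 0 := by
    intro w₀ w hw
    exact lam1_box (O_sub hw).2
  have hmin : ∀ w₀ : Sp 3, ∀ w ∈ O r w₀, IsMinOn (fun w => lam1 (orb (signs 3) w)) (O r w₀) w := by
    intro w₀ w hw v hv
    show lam1 (orb (signs 3) w) ≤ lam1 (orb (signs 3) v)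
    rw [hconst w₀ w hw, hconst w₀ v hv]
  have hself : ∀ w₀ : Sp 3, w₀ ∈ U 3 r → w₀ ∈ O r w₀ := fun w₀ h =>
    ⟨h.1, fun i => mul_self_pos.2 (h.2 i)⟩
  refine ⟨signs 3, finite_signs, ?_, ?_, ?_⟩
  · intro S hS
    obtain ⟨w₀, h, rfl⟩ := (stratum_iff hr S).1 hS
    exact sub_O hr h
  · intro S hS
    obtain ⟨w₀, h, rfl⟩ := (stratum_iff hr S).1 hS
    refine ⟨?_, w₀, hself w₀ h, hmin w₀ w₀ (hself w₀ h)⟩
    exact (continuousOn_const (c := (cubeWalk.charpoly.roots.sort (· ≥ ·)).getD 1 0)).congr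
      (hconst w₀)
  · let w : Sp 3 := !₂[2 * r / 3, 2 * r / 3, r / 3]
    have hw : w ∈ U 3 r := by
      refine ⟨?_, ?_⟩
      · rw [EuclideanSpace.norm_eq]
        have h1 : ∑ i, ‖w i‖ ^ 2 = r ^ 2 := by
          simp [w, Fin.sum_univ_three]
          ring
        rw [h1, Real.sqrt_sq hr.le]
      · intro i
        fin_cases i <;> simp [w] <;> positivity
    refine ⟨O r w, (stratum_iff hr _).2 ⟨w, hw, rfl⟩, w, hself w hw, hmin w w (hself w hw), ?_⟩
    intro hE
    have h1 := edge_of_adj hw.2 (ε := 1) (δ := ![-1, 1, 1]) ⟨0, by decide, by decide⟩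
    have h2 := edge_of_adj hw.2 (ε := 1) (δ := ![1, 1, -1]) ⟨2, by decide, by decide⟩
    have h3 := hE _ _ _ _ h1 h2
    rw [EuclideanSpace.dist_eq, EuclideanSpace.dist_eq] at h3
    simp only [Fin.sum_univ_three, sw_apply] at h3
    simp [w, sg_one, sg_neg, Real.dist_eq] at h3
    have h5 : 0 < r / 3 + r / 3 := by positivity
    have h6 : 0 < 2 * r / 3 + 2 * r / 3 := by positivity
    rw [Real.sqrt_sq h5.le, Real.sqrt_sq h6.le] at h3
    linarith

end Pool.Agent.Results.MP_427d8c_co.Boxes
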